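import Mathlib
import Pool.Agent.Q91.BX.StmSt

/-!
Root counts modulo primes over the box of polynomials of height `H`.
-/

set_option autoImplicit false

namespace Pool.Agent.Q6.BX

open Finset Pool.Agent.Q91.BX.St

/-- counting a residue class in an interval -/
theorem icc_count (a b v r : ℤ) (hab : a ≤ b + 1) (hr : 0 < r) :
    |((#{x ∈ Icc a b | x ≡ v [ZMOD r]} : ℕ) : ℝ) - ((b + 1 - a : ℤ) : ℝ) / (r : ℝ)| ≤ 1 := by
  have h1 : Icc a b = Ioc (a - 1) b := by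
    ext x; simp only [mem_Icc, mem_Ioc]; omega
  have h2 := Int.Ioc_filter_modEq_card (a - 1) b hr v
  rw [← h1] at h2
  set u : ℚ := ((b : ℚ) - v) / (r : ℚ) with hu
  set w : ℚ := (((a - 1 : ℤ) : ℚ) - v) / (r : ℚ) with hw
  have hrq : (0 : ℚ) < (r : ℚ) := by exact_mod_cast hr
  have huw : w ≤ u := by
    rw [hu, hw, div_le_div_iff_of_pos_right hrq]
    have : (((a - 1 : ℤ) : ℚ)) ≤ (b : ℚ) := by exact_mod_cast (by omega : a - 1 ≤ b)
    linarith
  have h3 : ⌊w⌋ ≤ ⌊u⌋ := Int.floor_le_floor huw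
  have h4 : ((#{x ∈ Icc a b | x ≡ v [ZMOD r]} : ℕ) : ℤ) = ⌊u⌋ - ⌊w⌋ := by
    rw [h2]; exact max_eq_left (by omega)
  have h5 : ((#{x ∈ Icc a b | x ≡ v [ZMOD r]} : ℕ) : ℚ) = (⌊u⌋ : ℚ) - (⌊w⌋ : ℚ) := by
    have := congrArg (fun z : ℤ => (z : ℚ)) h4
    push_cast at this
    exact this
  have h6 : u - w = (((b + 1 - a : ℤ) : ℚ)) / (r : ℚ) := by
    rw [hu, hw, ← sub_div]; push_cast; ring
  have h7 : |((#{x ∈ Icc a b | x ≡ v [ZMOD r]} : ℕ) : ℚ) - (((b + 1 - a : ℤ) : ℚ)) / (r : ℚ)| ≤ 1 := by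
    rw [h5, ← h6, abs_le]
    have e1 := Int.floor_le u
    have e2 := Int.lt_floor_add_one u
    have e3 := Int.floor_le w
    have e4 := Int.lt_floor_add_one w
    constructor <;> linarith
  have h8 : (((|((#{x ∈ Icc a b | x ≡ v [ZMOD r]} : ℕ) : ℚ)
      - (((b + 1 - a : ℤ) : ℚ)) / (r : ℚ)| : ℚ)) : ℝ) ≤ ((1 : ℚ) : ℝ) := by
    exact_mod_cast h7
  have h9 : (((|((#{x ∈ Icc a b | x ≡ v [ZMOD r]} : ℕ) : ℚ)
      - (((b + 1 - a : ℤ) : ℚ)) / (r : ℚ)| : ℚ)) : ℝ)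
      = |((#{x ∈ Icc a b | x ≡ v [ZMOD r]} : ℕ) : ℝ) - ((b + 1 - a : ℤ) : ℝ) / (r : ℝ)| := by
    push_cast
    rfl
  rw [h9] at h8
  simpa using h8

/-- averaging over one coordinate -/
theorem avg {n : ℕ} (s : Fin n → Finset ℤ) (i : Fin n) (F : (Fin n → ℤ) → ℝ) :
    ∑ c ∈ Fintype.piFinset s, ∑ x ∈ s i, F (Function.update c i x) =
      (#(s i) : ℝ) * ∑ c ∈ Fintype.piFinset s, F c := by
  have e1 : (#(s i) : ℝ) * ∑ c ∈ Fintype.piFinset s, F c
      = ∑ c ∈ Fintype.piFinset s, ∑ x ∈ s i, F c := by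
    rw [mul_sum]
    refine sum_congr rfl fun c _ => ?_
    rw [sum_const, nsmul_eq_mul]
  rw [e1, ← sum_product', ← sum_product']
  refine sum_nbij' (fun q => (Function.update q.1 i q.2, q.1 i))
    (fun q => (Function.update q.1 i q.2, q.1 i)) ?_ ?_ ?_ ?_ ?_
  · rintro ⟨c, x⟩ h
    simp only [mem_product, Fintype.mem_piFinset] at h ⊢
    refine ⟨fun k => ?_, h.1 i⟩
    by_cases hk : k = i
    · subst hk; simpa using h.2
    · simpa [Function.update_of_ne hk] using h.1 k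
  · rintro ⟨c, x⟩ h
    simp only [mem_product, Fintype.mem_piFinset] at h ⊢
    refine ⟨fun k => ?_, h.1 i⟩
    by_cases hk : k = i
    · subst hk; simpa using h.2
    · simpa [Function.update_of_ne hk] using h.1 k
  · rintro ⟨c, x⟩ _
    simp
  · rintro ⟨c, x⟩ _
    simp
  · rintro ⟨c, x⟩ _
    rfl

/-- one class in coordinate `i` -/
theorem cls {n : ℕ} (s : Fin n → Finset ℤ) (i : Fin n) (P Q : (Fin n → ℤ) → Prop)
    [DecidablePred P] [DecidablePred Q]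
    (hQ : ∀ c x, Q (Function.update c i x) ↔ Q c) (B : ℝ)
    (hP : ∀ c ∈ Fintype.piFinset s, Q c → ((#{x ∈ s i | P (Function.update c i x)} : ℕ) : ℝ) ≤ B) :
    (#(s i) : ℝ) * ((#{c ∈ Fintype.piFinset s | P c ∧ Q c} : ℕ) : ℝ) ≤
      B * ((#{c ∈ Fintype.piFinset s | Q c} : ℕ) : ℝ) := by
  have h1 := avg s i (fun c => if P c ∧ Q c then (1 : ℝ) else 0)
  have h2 : ∑ c ∈ Fintype.piFinset s, (if P c ∧ Q c then (1 : ℝ) else 0)
      = ((#{c ∈ Fintype.piFinset s | P c ∧ Q c} : ℕ) : ℝ) := by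
    rw [sum_boole]
  rw [h2] at h1
  rw [← h1]
  have h3 : B * ((#{c ∈ Fintype.piFinset s | Q c} : ℕ) : ℝ)
      = ∑ c ∈ Fintype.piFinset s, (if Q c then B else 0) := by
    rw [← sum_filter, sum_const, nsmul_eq_mul, mul_comm]
  rw [h3]
  refine sum_le_sum fun c hc => ?_
  by_cases hq : Q c
  · rw [if_pos hq]
    refine le_trans (le_of_eq ?_) (hP c hc hq)
    rw [← sum_boole]
    refine sum_congr rfl fun x _ => ?_
    simp [hQ, hq]
  · rw [if_neg hq]
    refine le_of_eq (sum_eq_zero fun x _ => ?_)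
    simp [hQ, hq]

section box

variable {j : ℕ}

/-- the ranges of the coefficients -/
noncomputable def rg (j H : ℕ) (i : Fin (j + 1)) : Finset ℤ :=
  if (i : ℕ) = j then Icc 1 (H : ℤ) else Icc (-(H : ℤ)) H

theorem box_eq (j H : ℕ) : box j H = Fintype.piFinset (rg j H) := rfl

theorem rg_zero (hj : 1 ≤ j) (H : ℕ) : rg j H 0 = Icc (-(H : ℤ)) H := by
  have : ¬ (((0 : Fin (j + 1)) : ℕ) = j) := by simp; omega
  unfold rg; rw [if_neg this]

theorem card_rg_zero (hj : 1 ≤ j) (H : ℕ) : (#(rg j H 0) : ℝ) = 2 * H + 1 := by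
  rw [rg_zero hj, Int.card_Icc]
  have : ((H : ℤ) + 1 - -(H : ℤ)).toNat = 2 * H + 1 := by omega
  rw [this]; push_cast; ring

theorem rg_icc (H : ℕ) (i : Fin (j + 1)) : ∃ a b : ℤ, rg j H i = Icc a b ∧ a ≤ b + 1 ∧
    (H : ℤ) ≤ b + 1 - a ∧ (#(rg j H i) : ℝ) = ((b + 1 - a : ℤ) : ℝ) := by
  by_cases h : (i : ℕ) = j
  · refine ⟨1, H, by unfold rg; rw [if_pos h], by omega, by omega, ?_⟩
    unfold rg; rw [if_pos h, Int.card_Icc]
    have : ((H : ℤ) + 1 - 1).toNat = H := by omega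
    rw [this]; push_cast; ring
  · refine ⟨-(H : ℤ), H, by unfold rg; rw [if_neg h], by omega, by omega, ?_⟩
    unfold rg; rw [if_neg h, Int.card_Icc]
    have : ((H : ℤ) + 1 - -(H : ℤ)).toNat = 2 * H + 1 := by omega
    rw [this]; push_cast; ring

/-- one residue class modulo a prime `p ≤ H` in the range of a coefficient -/
theorem rg_class (H : ℕ) (i : Fin (j + 1)) (p : ℕ) (hp : p.Prime) (hpH : p ≤ H) (v : ℤ) :
    ((#{x ∈ rg j H i | x ≡ v [ZMOD (p : ℤ)]} : ℕ) : ℝ) ≤ 2 / p * (#(rg j H i) : ℝ) := by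
  obtain ⟨a, b, h1, h2, h3, h4⟩ := rg_icc (j := j) H i
  have hp0 : (0 : ℤ) < p := by exact_mod_cast hp.pos
  have hp0' : (0 : ℝ) < p := by exact_mod_cast hp.pos
  have h5 := icc_count a b v p h2 hp0
  rw [← h1, ← h4] at h5
  have h6 := (abs_le.1 h5).2
  have h7 : (p : ℝ) ≤ (#(rg j H i) : ℝ) := by
    rw [h4]
    have : (p : ℤ) ≤ b + 1 - a := le_trans (by exact_mod_cast hpH) h3
    exact_mod_cast this
  have h8 : (1 : ℝ) ≤ (#(rg j H i) : ℝ) / p := by
    rw [le_div_iff₀ hp0']; linarith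
  have h9 : 2 / (p : ℝ) * (#(rg j H i) : ℝ) = 2 * ((#(rg j H i) : ℝ) / p) := by ring
  rw [h9]
  simp only [Int.cast_natCast] at h6
  linarith

theorem rg_pos (H : ℕ) (hH : 1 ≤ H) (i : Fin (j + 1)) : (0 : ℝ) < (#(rg j H i) : ℝ) := by
  obtain ⟨a, b, h1, h2, h3, h4⟩ := rg_icc (j := j) H i
  rw [h4]
  have : (0 : ℤ) < b + 1 - a := by omega
  exact_mod_cast this

/-- one class modulo `p` in coordinate `i`, together with a condition free of that coordinate -/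
theorem box_class (H : ℕ) (i : Fin (j + 1)) (p : ℕ) (hp : p.Prime) (hpH : p ≤ H)
    (P Q : (Fin (j + 1) → ℤ) → Prop) [DecidablePred P] [DecidablePred Q]
    (hQ : ∀ c x, Q (Function.update c i x) ↔ Q c)
    (v : (Fin (j + 1) → ℤ) → ℤ)
    (hP : ∀ c x, P (Function.update c i x) → x ≡ v c [ZMOD (p : ℤ)]) :
    ((#{c ∈ box j H | P c ∧ Q c} : ℕ) : ℝ) ≤ 2 / p * ((#{c ∈ box j H | Q c} : ℕ) : ℝ) := by
  have h1 := cls (rg j H) i P Q hQ (2 / p * (#(rg j H i) : ℝ)) (fun c _ _ => by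
    refine le_trans ?_ (rg_class H i p hp hpH (v c))
    exact_mod_cast card_le_card (fun x hx => by
      simp only [mem_filter] at hx ⊢
      exact ⟨hx.1, hP c x hx.2⟩))
  have h2 : (0 : ℝ) < (#(rg j H i) : ℝ) := rg_pos H (le_trans hp.one_lt.le hpH) i
  rw [← box_eq] at h1
  have h3 : 2 / (p : ℝ) * (#(rg j H i) : ℝ) * ((#{c ∈ box j H | Q c} : ℕ) : ℝ)
      = (#(rg j H i) : ℝ) * (2 / p * ((#{c ∈ box j H | Q c} : ℕ) : ℝ)) := by ring
  rw [h3] at h1
  exact le_of_mul_le_mul_left h1 h2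

/-- the value at `k` -/
def ev (c : Fin (j + 1) → ℤ) (k : ℕ) : ℤ := ∑ i, c i * (k : ℤ) ^ (i : ℕ)

theorem ev_update (c : Fin (j + 1) → ℤ) (i : Fin (j + 1)) (x : ℤ) (k : ℕ) :
    ev (Function.update c i x) k = ev c k + (x - c i) * (k : ℤ) ^ (i : ℕ) := by
  unfold ev
  have h1 : ∀ l : Fin (j + 1), Function.update c i x l * (k : ℤ) ^ (l : ℕ)
      = c l * (k : ℤ) ^ (l : ℕ) + (if l = i then (x - c i) * (k : ℤ) ^ (i : ℕ) else 0) := by
    intro l
    by_cases h : l = i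
    · subst h; simp; ring
    · simp [Function.update_of_ne h, h]
  rw [sum_congr rfl (fun l _ => h1 l), sum_add_distrib]
  simp

theorem rt_eq (c : Fin (j + 1) → ℤ) (p : ℕ) :
    rt c p = ((range p).filter (fun k : ℕ => (p : ℤ) ∣ ev c k)).card := rfl

theorem box_class' (H : ℕ) (i : Fin (j + 1)) (p : ℕ) (hp : p.Prime) (hpH : p ≤ H)
    (P : (Fin (j + 1) → ℤ) → Prop) [DecidablePred P]
    (v : (Fin (j + 1) → ℤ) → ℤ)
    (hP : ∀ c x, P (Function.update c i x) → x ≡ v c [ZMOD (p : ℤ)]) :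
    ((#{c ∈ box j H | P c} : ℕ) : ℝ) ≤ 2 / p * ((#(box j H) : ℕ) : ℝ) := by
  have h := box_class H i p hp hpH P (fun _ => True) (fun _ _ => Iff.rfl) v hP
  simpa using h

/-- (3) -/
theorem dvd : S_DIV := by
  intro j hj H p hp hpH
  have hp0' : (0 : ℝ) < p := by exact_mod_cast hp.pos
  set i1 : Fin (j + 1) := ⟨1, by omega⟩ with hi1
  have h01 : i1 ≠ 0 := by
    intro h
    have := congrArg Fin.val h
    simp [hi1] at this
  have h1 := box_class (j := j) H 0 p hp hpH (fun c => (p : ℤ) ∣ c 0) (fun c => (p : ℤ) ∣ c i1)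
    (fun c x => by simp only [Function.update_of_ne h01]) (fun _ => 0)
    (fun c x h => by
      simp only [Function.update_self] at h
      exact (Int.modEq_zero_iff_dvd).2 h)
  have h2 := box_class' (j := j) H i1 p hp hpH (fun c => (p : ℤ) ∣ c i1) (fun _ => 0)
    (fun c x h => by
      simp only [Function.update_self] at h
      exact (Int.modEq_zero_iff_dvd).2 h)
  have h3 : ((#((box j H).filter (fun c => ∀ i, (p : ℤ) ∣ c i)) : ℕ) : ℝ)
      ≤ ((#{c ∈ box j H | (p : ℤ) ∣ c 0 ∧ (p : ℤ) ∣ c i1} : ℕ) : ℝ) := by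
    exact_mod_cast card_le_card (fun c hc => by
      simp only [mem_filter] at hc ⊢
      exact ⟨hc.1, hc.2 0, hc.2 i1⟩)
  have h4 : (2 : ℝ) / p * ((#{c ∈ box j H | (p : ℤ) ∣ c i1} : ℕ) : ℝ)
      ≤ 2 / p * (2 / p * ((#(box j H) : ℕ) : ℝ)) :=
    mul_le_mul_of_nonneg_left h2 (by positivity)
  refine (h3.trans (h1.trans h4)).trans (le_of_eq ?_)
  field_simp
  ring

/-- (4) -/
theorem le : S_LE := by
  intro j c p hp hc
  haveI : Fact p.Prime := ⟨hp⟩
  set P : Polynomial (ZMod p) := ∑ i : Fin (j + 1),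
    Polynomial.C ((c i : ℤ) : ZMod p) * Polynomial.X ^ (i : ℕ) with hP
  have hcoef : ∀ i : Fin (j + 1), P.coeff (i : ℕ) = ((c i : ℤ) : ZMod p) := by
    intro i
    rw [hP, Polynomial.finsetSum_coeff]
    rw [Finset.sum_eq_single i]
    · simp
    · intro b _ hb
      rw [Polynomial.coeff_C_mul_X_pow, if_neg]
      intro h
      exact hb (Fin.ext h.symm)
    · intro h; exact absurd (mem_univ i) h
  have hP0 : P ≠ 0 := by
    intro h
    apply hc
    intro i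
    have := hcoef i
    rw [h, Polynomial.coeff_zero] at this
    exact (ZMod.intCast_zmod_eq_zero_iff_dvd _ p).1 this.symm
  have hdeg : P.natDegree ≤ j := by
    rw [hP]
    refine Polynomial.natDegree_sum_le_of_forall_le _ _ (fun i _ => ?_)
    refine (Polynomial.natDegree_C_mul_X_pow_le _ _).trans ?_
    omega
  rw [rt_eq]
  have h1 : ((range p).filter (fun k : ℕ => (p : ℤ) ∣ ev c k)).card ≤ P.roots.toFinset.card := by
    refine card_le_card_of_injOn (fun k : ℕ => (k : ZMod p)) ?_ ?_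
    · intro k hk
      simp only [coe_filter, mem_range, Set.mem_setOf_eq] at hk
      simp only [mem_coe, Multiset.mem_toFinset]
      rw [Polynomial.mem_roots hP0, Polynomial.IsRoot.def, hP, Polynomial.eval_finsetSum]
      have h2 := (ZMod.intCast_zmod_eq_zero_iff_dvd (ev c k) p).2 hk.2
      rw [← h2]
      unfold ev
      push_cast
      simp
    · intro a ha b hb hab
      simp only [coe_filter, mem_range, Set.mem_setOf_eq] at ha hb
      have h3 := (ZMod.natCast_eq_natCast_iff' a b p).1 hab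
      rwa [Nat.mod_eq_of_lt ha.1, Nat.mod_eq_of_lt hb.1] at h3
  exact h1.trans ((Multiset.toFinset_card_le _).trans ((Polynomial.card_roots' P).trans hdeg))

theorem rt_sum (c : Fin (j + 1) → ℤ) (p : ℕ) :
    (rt c p : ℝ) = ∑ k ∈ range p, (if (p : ℤ) ∣ ev c k then (1 : ℝ) else 0) := by
  rw [rt_eq, sum_boole]

theorem ev_zero_update (c : Fin (j + 1) → ℤ) (x : ℤ) (k : ℕ) :
    ev (Function.update c 0 x) k = x + (ev c k - c 0) := by
  rw [ev_update]; simp; ring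

/-- two roots -/
theorem two_roots (hj : 1 ≤ j) (H p : ℕ) (hp : p.Prime) (hpH : p ≤ H) (k l : ℕ) (hk : k < p)
    (hl : l < p) :
    ((#{c ∈ box j H | (p : ℤ) ∣ ev c k ∧ (p : ℤ) ∣ ev c l} : ℕ) : ℝ) ≤
      (if k = l then 2 / (p : ℝ) else 0) * (#(box j H) : ℝ) + (2 / (p : ℝ)) ^ 2 * (#(box j H) : ℝ) := by
  have hp0' : (0 : ℝ) < p := by exact_mod_cast hp.pos
  by_cases hkl : k = l
  · subst hkl
    rw [if_pos rfl]
    have h1 := box_class' (j := j) H 0 p hp hpH (fun c => (p : ℤ) ∣ ev c k)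
      (fun c => - (ev c k - c 0)) (fun c x h => by
        simp only [ev_zero_update] at h
        refine Int.ModEq.symm ((Int.modEq_iff_dvd).2 ?_)
        have e0 : x - -(ev c k - c 0) = x + (ev c k - c 0) := by ring
        rw [e0]; exact h)
    have h2 : ((#{c ∈ box j H | (p : ℤ) ∣ ev c k ∧ (p : ℤ) ∣ ev c k} : ℕ) : ℝ)
        = ((#{c ∈ box j H | (p : ℤ) ∣ ev c k} : ℕ) : ℝ) := by
      simp only [and_self]
    rw [h2]
    refine h1.trans ?_
    have : (0 : ℝ) ≤ (2 / (p : ℝ)) ^ 2 * (#(box j H) : ℝ) := by positivity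
    linarith
  · rw [if_neg hkl, zero_mul, zero_add]
    set i1 : Fin (j + 1) := ⟨1, by omega⟩ with hi1
    have h01 : i1 ≠ 0 := by
      intro h
      have := congrArg Fin.val h
      simp [hi1] at this
    have hlk : ∃ y : ℤ, ((l : ℤ) - k) * y ≡ 1 [ZMOD (p : ℤ)] := by
      have hpi : Prime (p : ℤ) := Nat.prime_iff_prime_int.1 hp
      have hnd : ¬ (p : ℤ) ∣ ((l : ℤ) - k) := by
        intro h
        have h1 : (k : ℤ) ≡ l [ZMOD (p : ℤ)] := (Int.modEq_iff_dvd).2 h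
        have h2 : k ≡ l [MOD p] := (Int.natCast_modEq_iff).1 h1
        have h3 : k % p = l % p := h2
        rw [Nat.mod_eq_of_lt hk, Nat.mod_eq_of_lt hl] at h3
        exact hkl h3
      have hcop : IsCoprime (p : ℤ) ((l : ℤ) - k) := (hpi.coprime_iff_not_dvd).2 hnd
      obtain ⟨u, w, huw⟩ := hcop
      refine ⟨w, ?_⟩
      refine Int.ModEq.symm ((Int.modEq_iff_dvd).2 ⟨-u, ?_⟩)
      linarith [huw]
    obtain ⟨y, hy⟩ := hlk
    have h1 := box_class (j := j) H 0 p hp hpH (fun c => (p : ℤ) ∣ ev c k)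
      (fun c => (p : ℤ) ∣ ev c l - ev c k)
      (fun c x => by simp only [ev_zero_update]; ring_nf)
      (fun c => - (ev c k - c 0)) (fun c x h => by
        simp only [ev_zero_update] at h
        refine Int.ModEq.symm ((Int.modEq_iff_dvd).2 ?_)
        have e0 : x - -(ev c k - c 0) = x + (ev c k - c 0) := by ring
        rw [e0]; exact h)
    have h2 := box_class' (j := j) H i1 p hp hpH (fun c => (p : ℤ) ∣ ev c l - ev c k)
      (fun c => y * -(ev c l - ev c k - c i1 * ((l : ℤ) - k))) (fun c x h => by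
        simp only [ev_update] at h
        have e1 : (i1 : ℕ) = 1 := rfl
        rw [e1] at h
        have h3 : x * ((l : ℤ) - k) ≡ -(ev c l - ev c k - c i1 * ((l : ℤ) - k)) [ZMOD (p : ℤ)] := by
          refine Int.ModEq.symm ((Int.modEq_iff_dvd).2 ?_)
          have e2 : x * ((l : ℤ) - k) - -(ev c l - ev c k - c i1 * ((l : ℤ) - k))
              = ev c l + (x - c i1) * (l : ℤ) ^ 1 - (ev c k + (x - c i1) * (k : ℤ) ^ 1) := by ring
          rw [e2]; exact h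
        have h4 := h3.mul_left y
        have h5 : x * (((l : ℤ) - k) * y) ≡ x * 1 [ZMOD (p : ℤ)] := hy.mul_left x
        have e3 : y * (x * ((l : ℤ) - k)) = x * (((l : ℤ) - k) * y) := by ring
        rw [e3] at h4
        have h6 := h5.symm.trans h4
        simpa using h6)
    have h3 : ((#{c ∈ box j H | (p : ℤ) ∣ ev c k ∧ (p : ℤ) ∣ ev c l} : ℕ) : ℝ)
        ≤ ((#{c ∈ box j H | (p : ℤ) ∣ ev c k ∧ (p : ℤ) ∣ ev c l - ev c k} : ℕ) : ℝ) := by
      exact_mod_cast card_le_card (fun c hc => by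
        simp only [mem_filter] at hc ⊢
        exact ⟨hc.1, hc.2.1, dvd_sub hc.2.2 hc.2.1⟩)
    have h4 := mul_le_mul_of_nonneg_left h2 (by positivity : (0 : ℝ) ≤ 2 / (p : ℝ))
    refine (h3.trans (h1.trans h4)).trans (le_of_eq ?_)
    ring

/-- (2) -/
theorem sq : S_SQ := by
  intro j hj H p hp hpH
  have hp0' : (0 : ℝ) < p := by exact_mod_cast hp.pos
  have h1 : ∀ c : Fin (j + 1) → ℤ, ((rt c p : ℝ) - 1) ^ 2 ≤
      (∑ k ∈ range p, ∑ l ∈ range p,
        (if (p : ℤ) ∣ ev c k ∧ (p : ℤ) ∣ ev c l then (1 : ℝ) else 0)) + 1 := by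
    intro c
    have e1 : (∑ k ∈ range p, ∑ l ∈ range p,
        (if (p : ℤ) ∣ ev c k ∧ (p : ℤ) ∣ ev c l then (1 : ℝ) else 0)) = (rt c p : ℝ) ^ 2 := by
      rw [_root_.sq, rt_sum, sum_mul_sum]
      refine sum_congr rfl fun k _ => sum_congr rfl fun l _ => ?_
      by_cases a : (p : ℤ) ∣ ev c k <;> by_cases b : (p : ℤ) ∣ ev c l <;> simp [a, b]
    rw [e1]
    have : (0 : ℝ) ≤ (rt c p : ℝ) := Nat.cast_nonneg _
    nlinarith
  refine (sum_le_sum fun c _ => h1 c).trans ?_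
  rw [sum_add_distrib, sum_comm]
  have h2 : ∀ k ∈ range p, ∑ c ∈ box j H, ∑ l ∈ range p,
      (if (p : ℤ) ∣ ev c k ∧ (p : ℤ) ∣ ev c l then (1 : ℝ) else 0)
      ≤ 2 / (p : ℝ) * (#(box j H) : ℝ) + p * ((2 / (p : ℝ)) ^ 2 * (#(box j H) : ℝ)) := by
    intro k hk
    rw [sum_comm]
    have h3 : ∀ l ∈ range p, ∑ c ∈ box j H,
        (if (p : ℤ) ∣ ev c k ∧ (p : ℤ) ∣ ev c l then (1 : ℝ) else 0)
        ≤ (if k = l then 2 / (p : ℝ) else 0) * (#(box j H) : ℝ)
          + (2 / (p : ℝ)) ^ 2 * (#(box j H) : ℝ) := by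
      intro l hl
      rw [sum_boole]
      exact two_roots hj H p hp hpH k l (mem_range.1 hk) (mem_range.1 hl)
    refine (sum_le_sum h3).trans (le_of_eq ?_)
    rw [sum_add_distrib, ← sum_mul, sum_ite_eq, if_pos hk, sum_const, card_range, nsmul_eq_mul]
  refine (add_le_add_left (sum_le_sum h2) _).trans ?_
  rw [sum_const, sum_const, card_range, nsmul_eq_mul, nsmul_eq_mul]
  have h5 : (p : ℝ) * (2 / (p : ℝ) * (#(box j H) : ℝ) + p * ((2 / (p : ℝ)) ^ 2 * (#(box j H) : ℝ)))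
      = 6 * (#(box j H) : ℝ) := by
    field_simp; ring
  rw [h5]
  have : (0 : ℝ) ≤ (#(box j H) : ℝ) := Nat.cast_nonneg _
  linarith

/-- one pair of residues -/
theorem pair_sum (H p q : ℕ) (hp : p.Prime) (hq : q.Prime) (hpq : p ≠ q) (a b : ℤ) :
    |∑ x ∈ Icc (-(H : ℤ)) H, ((if (p : ℤ) ∣ x + a then (1 : ℝ) else 0) - 1 / p) *
      ((if (q : ℤ) ∣ x + b then (1 : ℝ) else 0) - 1 / q)| ≤ 4 := by
  have hp0 : (0 : ℤ) < p := by exact_mod_cast hp.pos
  have hq0 : (0 : ℤ) < q := by exact_mod_cast hq.pos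
  have hp0' : (0 : ℝ) < p := by exact_mod_cast hp.pos
  have hq0' : (0 : ℝ) < q := by exact_mod_cast hq.pos
  have hp1 : (1 : ℝ) ≤ p := by exact_mod_cast hp.one_lt.le
  have hq1 : (1 : ℝ) ≤ q := by exact_mod_cast hq.one_lt.le
  set N : ℝ := (((H : ℤ) + 1 - -(H : ℤ) : ℤ) : ℝ) with hN
  set I := Icc (-(H : ℤ)) H with hI
  obtain ⟨y, hy⟩ := Int.mod_coprime ((Nat.coprime_primes hp hq).2 hpq)
  set r : ℤ := -a + p * (y * (a - b)) with hr
  have hA := icc_count (-(H : ℤ)) H (-a) p (by omega) hp0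
  have hB := icc_count (-(H : ℤ)) H (-b) q (by omega) hq0
  have hC := icc_count (-(H : ℤ)) H r ((p : ℤ) * q) (by omega) (by positivity)
  rw [← hI, ← hN] at hA hB hC
  have eA : ∀ x : ℤ, (x ≡ -a [ZMOD (p : ℤ)] ↔ (p : ℤ) ∣ x + a) := by
    intro x
    rw [Int.modEq_comm, Int.modEq_iff_dvd]; simp
  have eB : ∀ x : ℤ, (x ≡ -b [ZMOD (q : ℤ)] ↔ (q : ℤ) ∣ x + b) := by
    intro x
    rw [Int.modEq_comm, Int.modEq_iff_dvd]; simp
  have hra : r ≡ -a [ZMOD (p : ℤ)] := by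
    rw [hr]; exact Int.modEq_add_fac_self
  have hrb : r ≡ -b [ZMOD (q : ℤ)] := by
    have h1 : (p : ℤ) * y * (a - b) ≡ 1 * (a - b) [ZMOD (q : ℤ)] := hy.mul_right _
    have h2 := h1.add_left (-a)
    have e1 : -a + (p : ℤ) * y * (a - b) = r := by rw [hr]; ring
    have e2 : -a + 1 * (a - b) = -b := by ring
    rwa [e1, e2] at h2
  have hcop : ((p : ℤ)).natAbs.Coprime ((q : ℤ)).natAbs := by
    simpa using (Nat.coprime_primes hp hq).2 hpq
  have eC : ∀ x : ℤ, (x ≡ r [ZMOD ((p : ℤ) * q)] ↔ ((p : ℤ) ∣ x + a ∧ (q : ℤ) ∣ x + b)) := by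
    intro x
    rw [← Int.modEq_and_modEq_iff_modEq_mul hcop, ← eA, ← eB]
    exact ⟨fun h => ⟨h.1.trans hra, h.2.trans hrb⟩, fun h => ⟨h.1.trans hra.symm, h.2.trans hrb.symm⟩⟩
  simp only [eA] at hA
  simp only [eB] at hB
  simp only [eC] at hC
  set A : ℝ := ((#{x ∈ I | (p : ℤ) ∣ x + a} : ℕ) : ℝ) with hAd
  set B : ℝ := ((#{x ∈ I | (q : ℤ) ∣ x + b} : ℕ) : ℝ) with hBd
  set C : ℝ := ((#{x ∈ I | (p : ℤ) ∣ x + a ∧ (q : ℤ) ∣ x + b} : ℕ) : ℝ) with hCd
  have hcardI : (#I : ℝ) = N := by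
    rw [hI, Int.card_Icc, hN]
    have : ((H : ℤ) + 1 - -(H : ℤ)).toNat = 2 * H + 1 := by omega
    rw [this]; push_cast; ring
  have hsum : ∑ x ∈ I, ((if (p : ℤ) ∣ x + a then (1 : ℝ) else 0) - 1 / p) *
      ((if (q : ℤ) ∣ x + b then (1 : ℝ) else 0) - 1 / q)
      = C - A / q - B / p + N / (p * q) := by
    have h1 : ∀ x ∈ I, ((if (p : ℤ) ∣ x + a then (1 : ℝ) else 0) - 1 / p) *
        ((if (q : ℤ) ∣ x + b then (1 : ℝ) else 0) - 1 / q)
        = (if (p : ℤ) ∣ x + a ∧ (q : ℤ) ∣ x + b then (1 : ℝ) else 0)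
          - (if (p : ℤ) ∣ x + a then (1 : ℝ) else 0) / q
          - (if (q : ℤ) ∣ x + b then (1 : ℝ) else 0) / p + 1 / (p * q) := by
      intro x _
      by_cases u : (p : ℤ) ∣ x + a <;> by_cases w : (q : ℤ) ∣ x + b <;> simp [u, w] <;> ring
    rw [sum_congr rfl h1, sum_add_distrib, sum_sub_distrib, sum_sub_distrib, ← sum_div, ← sum_div,
      sum_boole, sum_boole, sum_boole, sum_const, nsmul_eq_mul, hcardI]
    ring
  rw [hsum]
  simp only [Int.cast_natCast, Int.cast_mul] at hA hB hC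
  rw [abs_le] at hA hB hC
  have gA : |A / q - N / (p * q)| ≤ 1 := by
    have e : A / q - N / (p * q) = (A - N / p) / q := by field_simp
    rw [e, abs_div, abs_of_pos hq0', div_le_one hq0']
    exact (abs_le.2 hA).trans hq1
  have gB : |B / p - N / (p * q)| ≤ 1 := by
    have e : B / p - N / (p * q) = (B - N / q) / p := by field_simp
    rw [e, abs_div, abs_of_pos hp0', div_le_one hp0']
    exact (abs_le.2 hB).trans hp1
  rw [abs_le] at gA gB ⊢
  constructor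
  · linarith [hC.1, gA.1, gA.2, gB.1, gB.2]
  · linarith [hC.2, gA.1, gA.2, gB.1, gB.2]

/-- (1) -/
theorem cor : S_COR := by
  intro j hj H p q hp hq hpq hH
  have hp0' : (0 : ℝ) < p := by exact_mod_cast hp.pos
  have hq0' : (0 : ℝ) < q := by exact_mod_cast hq.pos
  set G : ℕ → ℕ → (Fin (j + 1) → ℤ) → ℝ := fun k l c =>
    ((if (p : ℤ) ∣ ev c k then (1 : ℝ) else 0) - 1 / p) *
      ((if (q : ℤ) ∣ ev c l then (1 : ℝ) else 0) - 1 / q) with hG
  have hN : (0 : ℝ) < 2 * (H : ℝ) + 1 := by positivity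
  have h1 : ∀ k l, |∑ c ∈ box j H, G k l c| ≤ 4 * (#(box j H) : ℝ) / (2 * H + 1) := by
    intro k l
    have e1 := avg (rg j H) 0 (G k l)
    rw [← box_eq, card_rg_zero hj] at e1
    rw [le_div_iff₀ hN]
    have e2 : |∑ c ∈ box j H, G k l c| * (2 * (H : ℝ) + 1)
        = |(2 * (H : ℝ) + 1) * ∑ c ∈ box j H, G k l c| := by
      rw [abs_mul, abs_of_pos hN, mul_comm]
    rw [e2, ← e1]
    refine (abs_sum_le_sum_abs _ _).trans ?_
    have e3 : ∀ c ∈ box j H, |∑ x ∈ rg j H 0, G k l (Function.update c 0 x)| ≤ 4 := by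
      intro c _
      rw [rg_zero hj]
      have := pair_sum H p q hp hq hpq (ev c k - c 0) (ev c l - c 0)
      simpa only [hG, ev_zero_update] using this
    refine (sum_le_sum e3).trans (le_of_eq ?_)
    rw [sum_const, nsmul_eq_mul, mul_comm]
  have h2 : ∀ c ∈ box j H, ((rt c p : ℝ) - 1) * ((rt c q : ℝ) - 1)
      = ∑ k ∈ range p, ∑ l ∈ range q, G k l c := by
    intro c _
    have e1 : (rt c p : ℝ) - 1
        = ∑ k ∈ range p, ((if (p : ℤ) ∣ ev c k then (1 : ℝ) else 0) - 1 / p) := by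
      rw [sum_sub_distrib, ← rt_sum, sum_const, card_range, nsmul_eq_mul, mul_one_div,
        div_self hp0'.ne']
    have e2 : (rt c q : ℝ) - 1
        = ∑ l ∈ range q, ((if (q : ℤ) ∣ ev c l then (1 : ℝ) else 0) - 1 / q) := by
      rw [sum_sub_distrib, ← rt_sum, sum_const, card_range, nsmul_eq_mul, mul_one_div,
        div_self hq0'.ne']
    rw [e1, e2, sum_mul_sum]
  rw [sum_congr rfl h2, sum_comm]
  refine (abs_sum_le_sum_abs _ _).trans ?_
  have h3 : ∀ k ∈ range p, |∑ c ∈ box j H, ∑ l ∈ range q, G k l c|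
      ≤ q * (4 * (#(box j H) : ℝ) / (2 * H + 1)) := by
    intro k _
    rw [sum_comm]
    refine (abs_sum_le_sum_abs _ _).trans ?_
    refine (sum_le_sum fun l _ => h1 k l).trans (le_of_eq ?_)
    rw [sum_const, card_range, nsmul_eq_mul]
  refine (sum_le_sum h3).trans (le_of_eq ?_)
  rw [sum_const, card_range, nsmul_eq_mul]
  push_cast
  ring

end box

end Pool.Agent.Q6.BX
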